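import Pool.Agent.N110.QG.Stm
import Pool.Agent.N769.RK.GE

/-! Project QG, leaf Q1 (helper50): limit numbers of an almost invariant sequence. -/

set_option autoImplicit false

open Multiset Filter Topology
open Pool.Agent.N110 Pool.Agent.N110.RK Pool.Agent.N110.QG

namespace Pool.Agent.N50.QG

section lims

/-- limits along an ultrafilter, then along a directed set -/
lemma exists_lims {𝒜 ι : Type} [Preorder 𝒜] [IsDirected 𝒜 (· ≤ ·)] [Nonempty 𝒜]
    (Q : 𝒜 → ℕ → ι → ℝ) (B : ι → ℝ) (h0 : ∀ a q i, 0 ≤ Q a q i)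
    (hB : ∀ a i, ∀ᶠ q in atTop, Q a q i ≤ B i)
    (hmono : ∀ a a', a ≤ a' → ∀ q i, Q a q i ≤ Q a' q i) : ∃ L : ι → ℝ,
    (∀ Z : Set (ι → ℝ), IsClosed Z → (∀ a, ∀ᶠ q in atTop, Q a q ∈ Z) → L ∈ Z) ∧
    (∀ i i', (∀ a, ∃ a', ∀ᶠ q in atTop, Q a q i ≤ Q a' q i') → L i ≤ L i') ∧
    (∀ i x, (∃ a, ∀ᶠ q in atTop, x ≤ Q a q i) → x ≤ L i) := by
  have h𝒰 : ((hyperfilter ℕ : Ultrafilter ℕ) : Filter ℕ) ≤ atTop := Nat.hyperfilter_le_atTop
  set 𝒰 : Ultrafilter ℕ := hyperfilter ℕ with h𝒰d
  have hlim : ∀ (a : 𝒜) (i : ι), ∃ x : ℝ, 0 ≤ x ∧ x ≤ B i ∧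
      Tendsto (fun q => Q a q i) 𝒰 (𝓝 x) := by
    intro a i
    have h1 : ((𝒰.map (fun q => Q a q i) : Ultrafilter ℝ) : Filter ℝ) ≤
        𝓟 (Set.Icc 0 (B i)) := by
      rw [le_principal_iff, Ultrafilter.coe_map, Filter.mem_map]
      have h2 := h𝒰 (hB a i)
      filter_upwards [h2] with q hq
      exact ⟨h0 a q i, hq⟩
    obtain ⟨x, hx, hx2⟩ := isCompact_Icc.ultrafilter_le_nhds _ h1
    exact ⟨x, hx.1, hx.2, by rw [Ultrafilter.coe_map] at hx2; exact hx2⟩
  choose K hK0 hKB hK using hlim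
  have hNB : (𝒰 : Filter ℕ).NeBot := inferInstance
  have hKmono : ∀ i, Monotone fun a => K a i := fun i a a' haa =>
    le_of_tendsto_of_tendsto (hK a i) (hK a' i) (Eventually.of_forall fun q => hmono a a' haa q i)
  have hbdd : ∀ i, BddAbove (Set.range fun a => K a i) := by
    intro i
    refine ⟨B i, ?_⟩
    rintro _ ⟨a, rfl⟩
    exact hKB a i
  have hJle : ∀ a i, K a i ≤ ⨆ a, K a i := fun a i => le_ciSup (hbdd i) a
  have hJtend : ∀ i, Tendsto (fun a => K a i) atTop (𝓝 (⨆ a, K a i)) := fun i =>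
    tendsto_atTop_ciSup (hKmono i) (hbdd i)
  refine ⟨fun i => ⨆ a, K a i, ?_, ?_, ?_⟩
  · intro Z hZ hQ
    have h1 : ∀ a, K a ∈ Z := fun a =>
      hZ.mem_of_tendsto (tendsto_pi_nhds.2 fun i => hK a i) (h𝒰 (hQ a))
    exact hZ.mem_of_tendsto (tendsto_pi_nhds.2 hJtend) (Eventually.of_forall h1)
  · intro i i' hii
    refine ciSup_le fun a => ?_
    obtain ⟨a', ha'⟩ := hii a
    exact (le_of_tendsto_of_tendsto (hK a i) (hK a' i') (h𝒰 ha')).trans (hJle a' i')
  · rintro i x ⟨a, ha⟩
    exact (ge_of_tendsto (hK a i) (h𝒰 ha)).trans (hJle a i)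

end lims

section level

variable {α : Type} {n : ℕ} {t : Multiset α → ℝ} {mul : α → α → α}

lemma rk_level (hpos : ∀ s : Multiset α, s.card = n + 2 → 0 < t s) (hex : Exch (n + 2) t)
    (hmul : ∀ a b (s : Multiset α), s.card + 1 = n + 2 →
      t (mul a b ::ₘ s) = t (a ::ₘ s) + t (b ::ₘ s)) (H X Mq : α) (mq N : ℕ) (hm : 1 ≤ mq)
    (hN : 1 ≤ N) (c : ℝ) (hc : 0 < c) (hle : Le (n + 2) t (c * mq) Mq H) (j : ℕ)
    (hj : j ≤ n + 1) :
    t (replicate j Mq + (X ::ₘ replicate (n + 1 - j) H)) / (mq : ℝ) ^ j * (N : ℝ) ^ (n + 1) *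
        (t (replicate (n + 1) Mq + {H}) / (mq : ℝ) ^ (n + 1)) ≤
      8 ^ (n + 1) * N * (c ^ (j + 1) + c ^ j) * t (replicate (n + 2) H) *
        ∑ i ∈ Finset.range (n + 2), (N : ℝ) ^ i *
          (t (replicate i Mq + (X ::ₘ replicate (n + 1 - i) H)) / (mq : ℝ) ^ i) := by
  have hmr : (1 : ℝ) ≤ mq := by exact_mod_cast hm
  have hNr : (1 : ℝ) ≤ N := by exact_mod_cast hN
  have hm0 : (0 : ℝ) < mq := by linarith
  have hN0 : (0 : ℝ) < N := by linarith
  obtain ⟨M', hM'⟩ := Pool.Agent.N769.RK.exists_mul hmul Mq (N - 1)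
  obtain ⟨H', hH'⟩ := Pool.Agent.N769.RK.exists_mul hmul H (mq - 1)
  have eN : N - 1 + 1 = N := by omega
  have em : mq - 1 + 1 = mq := by omega
  rw [eN] at hM'
  rw [em] at hH'
  set D := mul M' H' with hD
  have hDs : ∀ s : Multiset α, s.card + 1 = n + 2 →
      t (D ::ₘ s) = N * t (Mq ::ₘ s) + mq * t (H ::ₘ s) := by
    intro s hs
    rw [hD, hmul _ _ s hs, hM' s hs, hH' s hs]
  set S := replicate j Mq + replicate (n + 1 - j) H with hS
  have hSc : S.card = n + 1 := by
    rw [hS, card_add, card_replicate, card_replicate]; omega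
  have hrk := rkt1 hpos hex D X S 0 (by rw [card_zero, hSc]; omega)
  rw [hSc, add_zero, add_zero, add_zero] at hrk
  set τ := t (replicate (n + 2) H) with hτ
  have hτ0 : 0 < τ := hpos _ (card_replicate _ _)
  -- (1)
  have h1 : t (D ::ₘ S) ≤ N * (mq : ℝ) ^ (j + 1) * (c ^ (j + 1) + c ^ j) * τ := by
    rw [hDs S (by rw [hSc])]
    have a1 : t (Mq ::ₘ S) ≤ (c * mq) ^ (j + 1) * τ := by
      have := hle.rep (mul_pos hc hm0).le (j + 1) (replicate (n + 1 - j) H)
        (by rw [card_replicate]; omega)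
      have e1 : Mq ::ₘ S = replicate (j + 1) Mq + replicate (n + 1 - j) H := by
        rw [hS, replicate_succ, cons_add]
      have e2 : replicate (j + 1) H + replicate (n + 1 - j) H = replicate (n + 2) H := by
        rw [← replicate_add]
        congr 1
        omega
      rw [e1]
      rw [e2] at this
      exact this
    have a2 : t (H ::ₘ S) ≤ (c * mq) ^ j * τ := by
      have := hle.rep (mul_pos hc hm0).le j (replicate (n + 2 - j) H)
        (by rw [card_replicate]; omega)
      have e1 : H ::ₘ S = replicate j Mq + replicate (n + 2 - j) H := by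
        have : n + 2 - j = (n + 1 - j) + 1 := by omega
        rw [hS, this, replicate_succ, add_cons]
      have e2 : replicate j H + replicate (n + 2 - j) H = replicate (n + 2) H := by
        rw [← replicate_add]
        congr 1
        omega
      rw [e1]
      rw [e2] at this
      exact this
    have a3 : (N : ℝ) * t (Mq ::ₘ S) ≤ N * ((c * mq) ^ (j + 1) * τ) :=
      mul_le_mul_of_nonneg_left a1 hN0.le
    have a4 : (mq : ℝ) * t (H ::ₘ S) ≤ mq * ((c * mq) ^ j * τ) :=
      mul_le_mul_of_nonneg_left a2 hm0.le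
    have a5 : (mq : ℝ) * ((c * mq) ^ j * τ) ≤ N * ((mq : ℝ) * ((c * mq) ^ j * τ)) :=
      le_mul_of_one_le_left (by positivity) hNr
    calc (N : ℝ) * t (Mq ::ₘ S) + mq * t (H ::ₘ S) ≤
        N * ((c * mq) ^ (j + 1) * τ) + N * ((mq : ℝ) * ((c * mq) ^ j * τ)) := by linarith
      _ = _ := by rw [mul_pow, mul_pow]; ring
  -- (2)
  have h2 : (N : ℝ) ^ (n + 1) * mq * t (replicate (n + 1) Mq + {H}) ≤
      t (replicate (n + 2) D) := by
    have a1 : Le (n + 2) t (1 / N) Mq D := by
      intro s hs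
      rw [hDs s hs, one_div, ← div_eq_inv_mul, le_div_iff₀ hN0]
      have := hpos (H ::ₘ s) (by rw [card_cons]; exact hs)
      have h3 : 0 < (mq : ℝ) * t (H ::ₘ s) := by positivity
      linarith
    have a2 := a1.rep (by positivity) (n + 1) {H} (by rw [card_singleton]; omega)
    rw [div_pow, one_pow, one_div, ← div_eq_inv_mul, le_div_iff₀ (by positivity)] at a2
    have a3 := hDs (replicate (n + 1) D) (by rw [card_replicate])
    rw [← replicate_succ] at a3
    have e1 : replicate (n + 1) D + {H} = H ::ₘ replicate (n + 1) D := by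
      rw [add_comm (replicate (n + 1) D) {H}, singleton_add]
    rw [e1] at a2
    have a4 : 0 < t (Mq ::ₘ replicate (n + 1) D) :=
      hpos _ (by rw [card_cons, card_replicate])
    have a5 : (mq : ℝ) * t (H ::ₘ replicate (n + 1) D) ≤ t (replicate (n + 2) D) := by
      rw [a3]
      have : 0 < (N : ℝ) * t (Mq ::ₘ replicate (n + 1) D) := by positivity
      linarith
    calc (N : ℝ) ^ (n + 1) * mq * t (replicate (n + 1) Mq + {H}) =
        mq * (t (replicate (n + 1) Mq + {H}) * (N : ℝ) ^ (n + 1)) := by ring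
      _ ≤ mq * t (H ::ₘ replicate (n + 1) D) := mul_le_mul_of_nonneg_left a2 hm0.le
      _ ≤ _ := a5
  -- (3)
  set Sg := ∑ i ∈ Finset.range (n + 2), (N : ℝ) ^ i *
          (t (replicate i Mq + (X ::ₘ replicate (n + 1 - i) H)) / (mq : ℝ) ^ i) with hSg
  have htpos : ∀ i, i ≤ n + 1 →
      0 < t (replicate i Mq + (X ::ₘ replicate (n + 1 - i) H)) := fun i hi =>
    hpos _ (by rw [card_add, card_cons, card_replicate, card_replicate]; omega)
  have h3 : t (X ::ₘ replicate (n + 1) D) ≤ 2 ^ (n + 1) * ((mq : ℝ) ^ (n + 1) * Sg) := by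
    have e1 : X ::ₘ replicate (n + 1) D = replicate (n + 1) D + {X} := by
      rw [add_comm (replicate (n + 1) D) {X}, singleton_add]
    rw [e1]
    refine expand (n := n + 2) (D := D) (M := M') (H := H') (v := 1) one_pos ?_ (n + 1) {X}
      ((mq : ℝ) ^ (n + 1) * Sg) (by rw [card_singleton]; omega) ?_
    · intro s hs
      rw [hD, hmul _ _ s hs, one_mul]
    · intro i hi
      rw [one_pow, one_mul]
      have a1 : Le (n + 2) t N M' Mq := fun s hs => (hM' s hs).le
      have a2 : Le (n + 2) t mq H' H := fun s hs => (hH' s hs).le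
      have b1 := a1.rep hN0.le i (replicate (n + 1 - i) H' + {X})
        (by rw [card_add, card_replicate, card_singleton]; omega)
      have b2 := a2.rep hm0.le (n + 1 - i) (replicate i Mq + {X})
        (by rw [card_add, card_replicate, card_singleton]; omega)
      have e2 : replicate i Mq + (replicate (n + 1 - i) H' + {X}) =
          replicate (n + 1 - i) H' + (replicate i Mq + {X}) := by
        rw [← add_assoc, ← add_assoc, add_comm (replicate i Mq)]
      have e3 : replicate (n + 1 - i) H + (replicate i Mq + {X}) =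
          replicate i Mq + (X ::ₘ replicate (n + 1 - i) H) := by
        rw [← add_assoc, add_comm (replicate (n + 1 - i) H), add_assoc,
          add_comm (replicate (n + 1 - i) H), singleton_add]
      rw [e2] at b1
      rw [e3] at b2
      have b3 : t (replicate i M' + (replicate (n + 1 - i) H' + {X})) ≤
          (N : ℝ) ^ i * ((mq : ℝ) ^ (n + 1 - i) *
            t (replicate i Mq + (X ::ₘ replicate (n + 1 - i) H))) :=
        b1.trans (mul_le_mul_of_nonneg_left b2 (by positivity))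
      refine b3.trans ?_
      have b4 : (N : ℝ) ^ i *
          (t (replicate i Mq + (X ::ₘ replicate (n + 1 - i) H)) / (mq : ℝ) ^ i) ≤ Sg := by
        rw [hSg]
        refine Finset.single_le_sum (f := fun i => (N : ℝ) ^ i *
          (t (replicate i Mq + (X ::ₘ replicate (n + 1 - i) H)) / (mq : ℝ) ^ i)) ?_
          (Finset.mem_range.2 (by omega))
        intro k hk
        rw [Finset.mem_range] at hk
        have := htpos k (by omega)
        positivity
      have e4 : (N : ℝ) ^ i * ((mq : ℝ) ^ (n + 1 - i) *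
            t (replicate i Mq + (X ::ₘ replicate (n + 1 - i) H))) = (mq : ℝ) ^ (n + 1) *
          ((N : ℝ) ^ i *
          (t (replicate i Mq + (X ::ₘ replicate (n + 1 - i) H)) / (mq : ℝ) ^ i)) := by
        have e5 : (mq : ℝ) ^ (n + 1) = (mq : ℝ) ^ (n + 1 - i) * (mq : ℝ) ^ i := by
          rw [← pow_add]; congr 1; omega
        rw [e5]
        field_simp
      rw [e4]
      exact mul_le_mul_of_nonneg_left b4 (by positivity)
  -- combine
  have hA : replicate j Mq + (X ::ₘ replicate (n + 1 - j) H) = X ::ₘ S := by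
    rw [hS, add_cons]
  rw [hA]
  have hA0 : 0 < t (X ::ₘ S) := hpos _ (by rw [card_cons, hSc])
  have hP0 : 0 < t (replicate (n + 1) Mq + {H}) :=
    hpos _ (by rw [card_add, card_replicate, card_singleton])
  have hDS0 : 0 < t (D ::ₘ S) := hpos _ (by rw [card_cons, hSc])
  have hSg0 : 0 ≤ Sg := by
    rw [hSg]
    refine Finset.sum_nonneg fun k hk => ?_
    rw [Finset.mem_range] at hk
    have := htpos k (by omega)
    positivity
  have hfin : t (X ::ₘ S) * ((N : ℝ) ^ (n + 1) * mq * t (replicate (n + 1) Mq + {H})) ≤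
      4 ^ (n + 1) * ((2 ^ (n + 1) * ((mq : ℝ) ^ (n + 1) * Sg)) *
        (N * (mq : ℝ) ^ (j + 1) * (c ^ (j + 1) + c ^ j) * τ)) := by
    calc _ ≤ t (X ::ₘ S) * t (replicate (n + 2) D) := mul_le_mul_of_nonneg_left h2 hA0.le
      _ ≤ 4 ^ (n + 1) * (t (X ::ₘ replicate (n + 1) D) * t (D ::ₘ S)) := hrk
      _ ≤ _ := by
        apply mul_le_mul_of_nonneg_left _ (by positivity)
        exact mul_le_mul h3 h1 hDS0.le (by positivity)
  have hden : (0 : ℝ) < (mq : ℝ) ^ j * (mq : ℝ) ^ (n + 1) * mq := by positivity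
  have e6 : t (X ::ₘ S) / (mq : ℝ) ^ j * (N : ℝ) ^ (n + 1) *
        (t (replicate (n + 1) Mq + {H}) / (mq : ℝ) ^ (n + 1)) =
      (t (X ::ₘ S) * ((N : ℝ) ^ (n + 1) * mq * t (replicate (n + 1) Mq + {H}))) /
        ((mq : ℝ) ^ j * (mq : ℝ) ^ (n + 1) * mq) := by
    field_simp
  rw [e6, div_le_iff₀ hden]
  refine hfin.trans (le_of_eq ?_)
  have e7 : (8 : ℝ) ^ (n + 1) = 4 ^ (n + 1) * 2 ^ (n + 1) := by
    rw [← mul_pow]; norm_num
  rw [e7, pow_succ (mq : ℝ) j]
  ring

end level

section main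


/-- the quotients -/
noncomputable def Qt {α 𝒜 : Type} (n : ℕ) (t : Multiset α → ℝ) (m : ℕ → ℕ) (M : 𝒜 → ℕ → α)
    (a : 𝒜) (q : ℕ) (i : ℕ × Multiset α) : ℝ :=
  if i.2.card + i.1 = n + 2 then t (replicate i.1 (M a q) + i.2) / (m q : ℝ) ^ i.1 else 0

lemma Qt_eq {α 𝒜 : Type} {n : ℕ} {t : Multiset α → ℝ} {m : ℕ → ℕ} {M : 𝒜 → ℕ → α} (a : 𝒜) (q : ℕ) (j : ℕ) (s : Multiset α) (hs : s.card + j = n + 2) :
    Qt n t m M a q (j, s) = t (replicate j (M a q) + s) / (m q : ℝ) ^ j := if_pos hs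

lemma phi_inv {α 𝒜 G : Type} [Preorder 𝒜] [Group G] {n : ℕ} {t : Multiset α → ℝ}
    {φ : G → α → α} {mul : α → α → α} {H : α} {m : ℕ → ℕ} {M : 𝒜 → ℕ → α} {c ε : ℝ} (h : GSys (n + 2) t φ mul H m M (n + 1) c ε) (u : G) (x : α) :
    φ u (φ u⁻¹ x) = x := by
  have h1 := congrFun (h.φ_mul u u⁻¹) x
  rw [mul_inv_cancel, h.φ_one] at h1
  exact h1.symm

theorem leafQ1 : StmQ1 := by
  classical
  intro α 𝒜 G _ _ _ _ n t φ mul H m M c ε h
  have hmr : ∀ q, (1 : ℝ) ≤ m q := fun q => by exact_mod_cast h.m_pos q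
  have hm0 : ∀ q, (0 : ℝ) < m q := fun q => by linarith [hmr q]
  have hc := h.hc
  set B : ℕ × Multiset α → ℝ := fun i =>
    if i.2.card + i.1 = n + 2 then c ^ i.1 * t (replicate i.1 H + i.2) else 0 with hB
  have hQ0 : ∀ a q i, 0 ≤ Qt n t m M a q i := by
    intro a q i
    unfold Qt
    split_ifs with hs
    · exact div_nonneg (h.pos _ (by rw [card_add, card_replicate]; omega)).le
        (pow_nonneg (hm0 q).le _)
    · exact le_rfl
  have hQB : ∀ a i, ∀ᶠ q in atTop, Qt n t m M a q i ≤ B i := by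
    intro a i
    filter_upwards [h.M_le a] with q hq
    simp only [hB]
    unfold Qt
    split_ifs with hs
    · have hm := hm0 q
      have h1 := hq.rep (mul_pos hc hm).le i.1 i.2 hs
      rw [div_le_iff₀ (by positivity)]
      refine h1.trans (le_of_eq ?_)
      rw [mul_pow]
      ring
    · exact le_rfl
  have hQm : ∀ a a', a ≤ a' → ∀ q i, Qt n t m M a q i ≤ Qt n t m M a' q i := by
    intro a a' haa q i
    unfold Qt
    have hm := hm0 q
    split_ifs with hs
    · have h1 := (h.mono a a' haa q).rep zero_le_one i.1 i.2 hs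
      rw [one_pow, one_mul] at h1
      gcongr
    · exact le_rfl
  obtain ⟨L, hL1, hL2, hL3⟩ := exists_lims (Qt n t m M) B hQ0 hQB hQm
  -- basic properties
  have hLnn : ∀ i, 0 ≤ L i := fun i =>
    hL1 {x | 0 ≤ x i} (isClosed_le continuous_const (continuous_apply i))
      (fun a => Eventually.of_forall fun q => hQ0 a q i)
  have hLB : ∀ i, L i ≤ B i := fun i =>
    hL1 {x | x i ≤ B i} (isClosed_le (continuous_apply i) continuous_const) (fun a => hQB a i)
  have hL0 : ∀ s : Multiset α, s.card = n + 2 → L (0, s) = t s := by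
    intro s hs
    have h1 := hL1 {x | x (0, s) = t s} (isClosed_eq (continuous_apply _) continuous_const)
      (fun a => Eventually.of_forall fun q => by
        change Qt n t m M a q (0, s) = t s
        rw [Qt_eq a q 0 s (by omega)]
        simp)
    exact h1
  have hLinv1 : ∀ (u : G) (j : ℕ) (s : Multiset α), L (j, s.map (φ u)) ≤ L (j, s) := by
    intro u j s
    refine hL2 _ _ fun a => ?_
    obtain ⟨a', ha'⟩ := h.M_f u⁻¹ a
    refine ⟨a', Eventually.of_forall fun q => ?_⟩
    unfold Qt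
    simp only [card_map]
    have hm := hm0 q
    split_ifs with hs
    · have h1 := (ha' q).rep zero_le_one j s hs
      rw [one_pow, one_mul] at h1
      have e1 : replicate j (M a q) + s.map (φ u) =
          (replicate j (φ u⁻¹ (M a q)) + s).map (φ u) := by
        rw [Multiset.map_add, map_replicate, phi_inv h]
      rw [e1, h.inv u _ (by rw [card_add, card_replicate]; omega)]
      gcongr
    · exact le_rfl
  have hLinv : ∀ (u : G) (j : ℕ) (s : Multiset α), L (j, s.map (φ u)) = L (j, s) := by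
    intro u j s
    refine le_antisymm (hLinv1 u j s) ?_
    have h1 := hLinv1 u⁻¹ j (s.map (φ u))
    rw [Multiset.map_map] at h1
    have e : (φ u⁻¹ ∘ φ u) = id := by
      rw [← h.φ_mul, inv_mul_cancel, h.φ_one]
    rw [e, Multiset.map_id] at h1
    exact h1
  -- the numbers
  set b : ℕ → G → ℝ := fun j g =>
    if j ≤ n + 1 then L (j, φ g H ::ₘ replicate (n + 1 - j) H) else 0 with hb
  have hbj : ∀ j, j ≤ n + 1 → ∀ g, b j g = L (j, φ g H ::ₘ replicate (n + 1 - j) H) :=
    fun j hj g => if_pos hj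
  set κ := L (n + 1, {H}) with hκ
  have hκ0 : 0 < κ := by
    refine h.hε.trans_le ?_
    refine hL3 _ _ ?_
    obtain ⟨a, ha⟩ := h.eps
    refine ⟨a, ?_⟩
    filter_upwards [ha] with q hq
    rw [Qt_eq a q (n + 1) {H} (by rw [card_singleton]; omega)]
    rw [le_div_iff₀ (pow_pos (hm0 q) _)]
    have e1 : n + 2 - (n + 1) = 1 := by omega
    rw [e1, replicate_one] at hq
    exact hq
  have htop : ∀ g, b (n + 1) g = κ := by
    intro g
    rw [hbj (n + 1) le_rfl g, Nat.sub_self, replicate_zero]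
    have h1 := hLinv g (n + 1) {H}
    rw [map_singleton] at h1
    exact h1
  set τ := t (replicate (n + 2) H) with hτ
  have hτ0 : 0 < τ := h.pos _ (card_replicate _ _)
  have hb0 : ∀ g, b 0 g = t (φ g H ::ₘ replicate (n + 1) H) := by
    intro g
    rw [hbj 0 (Nat.zero_le _) g, Nat.sub_zero]
    exact hL0 _ (by rw [card_cons, card_replicate])
  -- the constants
  set Cj : ℕ → ℝ := fun j => 8 ^ (n + 1) * (c ^ (j + 1) + c ^ j) * τ / κ with hCj
  have hCj0 : ∀ j, 0 < Cj j := fun j => by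
    simp only [hCj]; positivity
  set C := ∑ j ∈ Finset.range (n + 2), (Cj j + c ^ j) with hC
  have hCp : 0 < C := Finset.sum_pos (fun j _ => by have := hCj0 j; positivity) ⟨0, by simp⟩
  have hCle : ∀ j, j ≤ n + 1 → Cj j + c ^ j ≤ C := fun j hj =>
    Finset.single_le_sum (f := fun j => Cj j + c ^ j)
      (fun j _ => by have := hCj0 j; positivity) (Finset.mem_range.2 (by omega))
  have hbnn : ∀ j g, 0 ≤ b j g := by
    intro j g
    simp only [hb]
    split_ifs
    · exact hLnn _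
    · exact le_rfl
  refine ⟨b, C, κ, ⟨hCp, hκ0, hbnn, htop, ?_, ?_, ?_⟩, hb0⟩
  · -- sub
    have hex : ∀ x y z : G, L (n, φ x H ::ₘ φ y H ::ₘ 0) ≤
        2 * (L (n, φ y H ::ₘ φ z H ::ₘ 0) + L (n, φ x H ::ₘ φ z H ::ₘ 0)) := by
      intro x y z
      have h1 := hL1 {f | f (n, φ x H ::ₘ φ y H ::ₘ 0) * f (n + 1, {φ z H}) ≤
          2 * (f (n + 1, {φ x H}) * f (n, φ y H ::ₘ φ z H ::ₘ 0) +
            f (n, φ x H ::ₘ φ z H ::ₘ 0) * f (n + 1, {φ y H}))}
        (isClosed_le (by fun_prop) (by fun_prop)) (fun a => Eventually.of_forall fun q => by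
          change Qt n t m M a q (n, φ x H ::ₘ φ y H ::ₘ 0) * Qt n t m M a q (n + 1, {φ z H}) ≤
            2 * (Qt n t m M a q (n + 1, {φ x H}) * Qt n t m M a q (n, φ y H ::ₘ φ z H ::ₘ 0) +
            Qt n t m M a q (n, φ x H ::ₘ φ z H ::ₘ 0) * Qt n t m M a q (n + 1, {φ y H}))
          have c2 : ∀ X Y : α, (X ::ₘ Y ::ₘ (0 : Multiset α)).card + n = n + 2 := fun X Y => by
            rw [card_cons, card_cons, card_zero]; omega
          have c1 : ∀ X : α, ({X} : Multiset α).card + (n + 1) = n + 2 := fun X => by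
            rw [card_singleton]; omega
          rw [Qt_eq a q n _ (c2 _ _), Qt_eq a q n _ (c2 _ _), Qt_eq a q n _ (c2 _ _),
            Qt_eq a q (n + 1) _ (c1 _), Qt_eq a q (n + 1) _ (c1 _), Qt_eq a q (n + 1) _ (c1 _)]
          have h2 := h.ex (replicate n (M a q)) (by rw [card_replicate]) (φ x H) (φ y H) (M a q)
            (φ z H)
          have e2 : ∀ X Y : α, replicate n (M a q) + (X ::ₘ Y ::ₘ 0) =
              X ::ₘ Y ::ₘ replicate n (M a q) := by
            intro X Y
            rw [add_cons, add_cons, add_zero]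
          have e1 : ∀ X : α, replicate (n + 1) (M a q) + {X} =
              X ::ₘ M a q ::ₘ replicate n (M a q) := by
            intro X
            rw [add_comm (replicate (n + 1) (M a q)) {X}, singleton_add, replicate_succ]
          rw [cons_swap (M a q) (φ z H)] at h2
          simp only [e2, e1]
          have hk : (0 : ℝ) < ((m q : ℝ) ^ n * (m q : ℝ) ^ (n + 1))⁻¹ := by
            have := hm0 q
            positivity
          have h3 := mul_le_mul_of_nonneg_left h2 hk.le
          have hmn : (m q : ℝ) ^ n ≠ 0 := pow_ne_zero _ (hm0 q).ne'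
          have hmn1 : (m q : ℝ) ^ (n + 1) ≠ 0 := pow_ne_zero _ (hm0 q).ne'
          calc _ = ((m q : ℝ) ^ n * (m q : ℝ) ^ (n + 1))⁻¹ *
              (t (φ x H ::ₘ φ y H ::ₘ replicate n (M a q)) *
                t (φ z H ::ₘ M a q ::ₘ replicate n (M a q))) := by
                rw [mul_inv]; ring
            _ ≤ _ := h3
            _ = _ := by rw [mul_inv]; ring)
      have k1 : ∀ w : G, L (n + 1, {φ w H}) = κ := by
        intro w
        have := hLinv w (n + 1) {H}
        rw [map_singleton] at this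
        exact this
      change L (n, φ x H ::ₘ φ y H ::ₘ 0) * L (n + 1, {φ z H}) ≤
          2 * (L (n + 1, {φ x H}) * L (n, φ y H ::ₘ φ z H ::ₘ 0) +
            L (n, φ x H ::ₘ φ z H ::ₘ 0) * L (n + 1, {φ y H})) at h1
      rw [k1, k1, k1] at h1
      have h4 : κ * L (n, φ x H ::ₘ φ y H ::ₘ 0) ≤
          κ * (2 * (L (n, φ y H ::ₘ φ z H ::ₘ 0) + L (n, φ x H ::ₘ φ z H ::ₘ 0))) := by
        linarith
      exact le_of_mul_le_mul_left h4 hκ0
    intro g g'
    have hbn : ∀ w, b n w = L (n, φ w H ::ₘ φ 1 H ::ₘ 0) := by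
      intro w
      rw [hbj n (by omega) w]
      have e1 : n + 1 - n = 1 := by omega
      rw [e1, replicate_one, h.φ_one]
      rfl
    have h1 := hex (g * g') 1 g
    have e2 : L (n, φ 1 H ::ₘ φ g H ::ₘ 0) = b n g := by
      rw [hbn, cons_swap]
    have e3 : L (n, φ (g * g') H ::ₘ φ g H ::ₘ 0) = b n g' := by
      rw [hbn]
      have h2 := hLinv g n (φ g' H ::ₘ φ 1 H ::ₘ 0)
      rw [map_cons, map_cons, map_zero] at h2
      have h3 : φ (g * g') H = φ g (φ g' H) := congrFun (h.φ_mul g g') H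
      have h4 : φ g H = φ g (φ 1 H) := by rw [h.φ_one]; rfl
      rw [h3, ← h2, ← h4]
    rw [e2, e3, ← hbn] at h1
    exact h1
  · -- le
    intro j hj g
    have h1 := hLB (j, φ g H ::ₘ replicate (n + 1 - j) H)
    have hcd : (φ g H ::ₘ replicate (n + 1 - j) H).card + j = n + 2 := by
      rw [card_cons, card_replicate]; omega
    rw [hbj j hj g]
    have e1 : B (j, φ g H ::ₘ replicate (n + 1 - j) H) = c ^ j * b 0 g := by
      have h2 : B (j, φ g H ::ₘ replicate (n + 1 - j) H) =
          c ^ j * t (replicate j H + (φ g H ::ₘ replicate (n + 1 - j) H)) := if_pos hcd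
      rw [h2, hb0, add_cons, ← replicate_add]
      congr 4
      omega
    rw [e1] at h1
    refine h1.trans (mul_le_mul_of_nonneg_right ?_ (hbnn 0 g))
    have := hCle j hj
    have := hCj0 j
    linarith
  · -- rk
    intro j hj g N hN
    have hNr : (1 : ℝ) ≤ N := by exact_mod_cast hN
    have hN0 : (0 : ℝ) < N := by linarith
    have h1 := hL1 {f | f (j, φ g H ::ₘ replicate (n + 1 - j) H) * (N : ℝ) ^ (n + 1) *
          f (n + 1, {H}) ≤ 8 ^ (n + 1) * N * (c ^ (j + 1) + c ^ j) * τ *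
        ∑ i ∈ Finset.range (n + 2), (N : ℝ) ^ i * f (i, φ g H ::ₘ replicate (n + 1 - i) H)}
      (isClosed_le (by fun_prop) (by fun_prop)) (fun a => by
        filter_upwards [h.M_le a] with q hq
        change Qt n t m M a q (j, φ g H ::ₘ replicate (n + 1 - j) H) * (N : ℝ) ^ (n + 1) *
          Qt n t m M a q (n + 1, {H}) ≤ 8 ^ (n + 1) * N * (c ^ (j + 1) + c ^ j) * τ *
          ∑ i ∈ Finset.range (n + 2), (N : ℝ) ^ i *
            Qt n t m M a q (i, φ g H ::ₘ replicate (n + 1 - i) H)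
        have h2 := rk_level h.pos h.ex h.mul_t H (φ g H) (M a q) (m q) N (h.m_pos q) hN c hc hq
          j hj
        have e1 : ∀ i, i ≤ n + 1 → Qt n t m M a q (i, φ g H ::ₘ replicate (n + 1 - i) H) =
            t (replicate i (M a q) + (φ g H ::ₘ replicate (n + 1 - i) H)) / (m q : ℝ) ^ i :=
          fun i hi => Qt_eq a q i _ (by rw [card_cons, card_replicate]; omega)
        rw [e1 j hj, Qt_eq a q (n + 1) {H} (by rw [card_singleton]; omega)]
        refine h2.trans (le_of_eq ?_)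
        congr 1
        refine Finset.sum_congr rfl fun i hi => ?_
        rw [Finset.mem_range] at hi
        rw [e1 i (by omega)])
    change L (j, φ g H ::ₘ replicate (n + 1 - j) H) * (N : ℝ) ^ (n + 1) *
          L (n + 1, {H}) ≤ 8 ^ (n + 1) * N * (c ^ (j + 1) + c ^ j) * τ *
        ∑ i ∈ Finset.range (n + 2), (N : ℝ) ^ i * L (i, φ g H ::ₘ replicate (n + 1 - i) H) at h1
    rw [← hbj j hj g, ← hκ] at h1
    have e2 : ∑ i ∈ Finset.range (n + 2), (N : ℝ) ^ i *
        L (i, φ g H ::ₘ replicate (n + 1 - i) H) =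
        (N : ℝ) ^ (n + 1) * ∑ i ∈ Finset.range (n + 2), b i g / (N : ℝ) ^ (n + 1 - i) := by
      rw [Finset.mul_sum]
      refine Finset.sum_congr rfl fun i hi => ?_
      rw [Finset.mem_range] at hi
      rw [← hbj i (by omega) g]
      have e5 : (N : ℝ) ^ (n + 1) = (N : ℝ) ^ (n + 1 - i) * (N : ℝ) ^ i := by
        rw [← pow_add]; congr 1; omega
      rw [e5]
      field_simp
    rw [e2] at h1
    set Sg := ∑ i ∈ Finset.range (n + 2), b i g / (N : ℝ) ^ (n + 1 - i) with hSg
    have hSg0 : 0 ≤ Sg := Finset.sum_nonneg fun i _ => div_nonneg (hbnn i g) (by positivity)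
    have h3 : b j g ≤ Cj j * N * Sg := by
      have hk : 0 < (N : ℝ) ^ (n + 1) * κ := by positivity
      have h4 : (N : ℝ) ^ (n + 1) * κ * b j g ≤ (N : ℝ) ^ (n + 1) * κ * (Cj j * N * Sg) := by
        calc (N : ℝ) ^ (n + 1) * κ * b j g = b j g * (N : ℝ) ^ (n + 1) * κ := by ring
          _ ≤ _ := h1
          _ = (N : ℝ) ^ (n + 1) * κ * (Cj j * N * Sg) := by
            simp only [hCj]
            field_simp
      exact le_of_mul_le_mul_left h4 hk
    refine h3.trans ?_
    have := hCle j hj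
    have hcj : 0 < c ^ j := by positivity
    have h5 : Cj j ≤ C := by linarith
    gcongr

end main

end Pool.Agent.N50.QG
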