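import Pool.Agent.N110.QG.Stm

/-! Project QG, leaf Q2 (helper50): quadratic growth from the relative inequalities. -/

set_option autoImplicit false

open Filter Topology
open Pool.Agent.N110.QG

namespace Pool.Agent.N50.QG

lemma big_of_word {G : Type} [Group G] {n : ℕ} {b : ℕ → G → ℝ} {C κ : ℝ} (h : Rel n b C κ)
    (g : G) : b 0 g ≤ (C * (n + 2) * κ + 2 * (C * (n + 2) * κ) / κ +
      4 * (C * (n + 2) * κ) ^ 2 / κ) * (1 + b n g) := by
  classical
  have hC := h.hC
  have hκ := h.hκ
  set C2 := C * (n + 2) * κ with hC2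
  have hC2p : 0 < C2 := by positivity
  have hbn : 0 ≤ b n g := h.nonneg n g
  -- the least N
  have hex : ∃ N : ℕ, 1 ≤ N ∧ ∀ j ≤ n, b j g ≤ κ * (N : ℝ) ^ (n + 1 - j) := by
    obtain ⟨N, hN⟩ := exists_nat_ge (1 + ∑ j ∈ Finset.range (n + 1), b j g / κ)
    have hs0 : 0 ≤ ∑ j ∈ Finset.range (n + 1), b j g / κ :=
      Finset.sum_nonneg fun j _ => div_nonneg (h.nonneg j g) hκ.le
    have hN1 : (1 : ℝ) ≤ N := by linarith
    refine ⟨N, by exact_mod_cast hN1, fun j hj => ?_⟩
    have h1 : b j g / κ ≤ ∑ j ∈ Finset.range (n + 1), b j g / κ :=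
      Finset.single_le_sum (f := fun j => b j g / κ)
        (fun j _ => div_nonneg (h.nonneg j g) hκ.le) (Finset.mem_range.2 (by omega))
    have h2 : b j g / κ ≤ N := by linarith
    rw [div_le_iff₀ hκ] at h2
    calc b j g ≤ N * κ := h2
      _ = κ * (N : ℝ) ^ 1 := by ring
      _ ≤ κ * (N : ℝ) ^ (n + 1 - j) := by
          apply mul_le_mul_of_nonneg_left _ hκ.le
          exact pow_le_pow_right₀ hN1 (by omega)
  set N := Nat.find hex with hNdef
  obtain ⟨hN1, hNb⟩ := Nat.find_spec hex
  rw [← hNdef] at hN1 hNb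
  have hN1r : (1 : ℝ) ≤ N := by exact_mod_cast hN1
  have hN0 : (0 : ℝ) < N := by linarith
  -- all numbers are at most C2 N
  have hall : ∀ j ≤ n, b j g ≤ C2 * N := by
    intro j hj
    have h1 := h.rk j (by omega) g N hN1
    have h2 : ∑ i ∈ Finset.range (n + 2), b i g / (N : ℝ) ^ (n + 1 - i) ≤
        ∑ _i ∈ Finset.range (n + 2), κ := by
      apply Finset.sum_le_sum
      intro i hi
      rw [Finset.mem_range] at hi
      rw [div_le_iff₀ (by positivity)]
      rcases Nat.lt_or_ge n i with hin | hin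
      · have : i = n + 1 := by omega
        rw [this, h.top g]
        simp
      · exact hNb i hin
    rw [Finset.sum_const, Finset.card_range, nsmul_eq_mul] at h2
    calc b j g ≤ _ := h1
      _ ≤ C * N * (((n + 2 : ℕ) : ℝ) * κ) := mul_le_mul_of_nonneg_left h2 (by positivity)
      _ = C2 * N := by rw [hC2]; push_cast; ring
  have hb0 := hall 0 (Nat.zero_le _)
  have hA : 0 ≤ 2 * C2 / κ := by positivity
  have hB : 0 ≤ 4 * C2 ^ 2 / κ := by positivity
  have hAB : C2 + 2 * C2 / κ + 4 * C2 ^ 2 / κ ≤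
      (C2 + 2 * C2 / κ + 4 * C2 ^ 2 / κ) * (1 + b n g) := by
    have : 0 ≤ (C2 + 2 * C2 / κ + 4 * C2 ^ 2 / κ) * b n g := by positivity
    linarith
  rcases Nat.lt_or_ge N 2 with hN2 | hN2
  · have hNe : N = 1 := by omega
    rw [hNe] at hb0
    have : b 0 g ≤ C2 := by simpa using hb0
    linarith
  · -- N - 1 fails
    have hlt : N - 1 < Nat.find hex := by rw [← hNdef]; omega
    have hfail := Nat.find_min hex hlt
    push Not at hfail
    obtain ⟨j, hj, hjb⟩ := hfail (by omega)
    have hcast : ((N - 1 : ℕ) : ℝ) = N - 1 := by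
      rw [Nat.cast_sub hN1]; simp
    rw [hcast] at hjb
    have hN2r : (2 : ℝ) ≤ N := by exact_mod_cast hN2
    have hhalf : (N : ℝ) / 2 ≤ N - 1 := by linarith
    have hhalf1 : (1 : ℝ) ≤ N / 2 := by linarith
    rcases Nat.lt_or_ge j n with hjn | hjn
    · -- j < n
      have h1 : κ * ((N : ℝ) / 2) ^ 2 ≤ C2 * N := by
        calc κ * ((N : ℝ) / 2) ^ 2 ≤ κ * ((N : ℝ) / 2) ^ (n + 1 - j) := by
              apply mul_le_mul_of_nonneg_left _ hκ.le
              exact pow_le_pow_right₀ hhalf1 (by omega)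
          _ ≤ κ * ((N : ℝ) - 1) ^ (n + 1 - j) := by
              apply mul_le_mul_of_nonneg_left _ hκ.le
              exact pow_le_pow_left₀ (by positivity) hhalf _
          _ ≤ b j g := hjb.le
          _ ≤ _ := hall j hj
      have h2 : (N : ℝ) ≤ 4 * C2 / κ := by
        rw [le_div_iff₀ hκ]
        have h3 : N * (κ * N) ≤ N * (4 * C2) := by nlinarith
        have := le_of_mul_le_mul_left h3 hN0
        linarith
      have h3 : b 0 g ≤ 4 * C2 ^ 2 / κ := by
        calc b 0 g ≤ C2 * N := hb0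
          _ ≤ C2 * (4 * C2 / κ) := mul_le_mul_of_nonneg_left h2 hC2p.le
          _ = _ := by ring
      linarith
    · -- j = n
      have hjn' : j = n := by omega
      subst hjn'
      have e1 : j + 1 - j = 1 := by omega
      rw [e1, pow_one] at hjb
      have h1 : (N : ℝ) ≤ 2 * b j g / κ := by
        rw [le_div_iff₀ hκ]
        nlinarith
      have h2 : b 0 g ≤ 2 * C2 / κ * b j g := by
        calc b 0 g ≤ C2 * N := hb0
          _ ≤ C2 * (2 * b j g / κ) := mul_le_mul_of_nonneg_left h1 hC2p.le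
          _ = _ := by ring
      have h3 : 2 * C2 / κ * b j g ≤ (C2 + 2 * C2 / κ + 4 * C2 ^ 2 / κ) * (1 + b j g) := by
        have k1 : 0 ≤ C2 * (1 + b j g) := by positivity
        have k2 : 0 ≤ 4 * C2 ^ 2 / κ * (1 + b j g) := by positivity
        nlinarith
      linarith

theorem leafQ2 : StmQ2 := by
  intro G _ n b C κ h S B hS
  set C3 := C * (n + 2) * κ + 2 * (C * (n + 2) * κ) / κ + 4 * (C * (n + 2) * κ) ^ 2 / κ with hC3
  have hC := h.hC
  have hκ := h.hκ
  have hC3p : 0 < C3 := by positivity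
  set A1 := C * |B| with hA1
  have hA10 : 0 ≤ A1 := by positivity
  have hword : ∀ l : ℕ, ∀ w : List G, w.length = l → 1 ≤ l → (∀ g ∈ w, g ∈ S) →
      b n w.prod ≤ A1 * (2 * (l : ℝ) ^ 2 - 1) := by
    intro l
    induction l using Nat.strong_induction_on with
    | _ l ih =>
      intro w hw hl hwS
      rcases Nat.lt_or_ge l 2 with hl2 | hl2
      · have hl1 : l = 1 := by omega
        subst hl1
        obtain ⟨g, rfl⟩ := List.length_eq_one_iff.1 hw
        have h1 := h.le n (by omega) g
        have h2 := hS g (hwS g (by simp))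
        rw [List.prod_singleton]
        have h3 : b 0 g ≤ |B| := h2.trans (le_abs_self B)
        have h4 : C * b 0 g ≤ A1 := mul_le_mul_of_nonneg_left h3 hC.le
        have h5 : A1 * (2 * ((1 : ℕ) : ℝ) ^ 2 - 1) = A1 := by push_cast; ring
        rw [h5]
        linarith
      · set k := l / 2 with hk
        have hk1 : 1 ≤ k := by omega
        have hkl : k < l := by omega
        have h1 := ih k hkl (w.take k) (by rw [List.length_take]; omega) hk1
          (fun g hg => hwS g (List.mem_of_mem_take hg))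
        have h2 := ih (l - k) (by omega) (w.drop k) (by rw [List.length_drop]; omega) (by omega)
          (fun g hg => hwS g (List.mem_of_mem_drop hg))
        have h3 := h.sub (w.take k).prod (w.drop k).prod
        rw [← List.prod_append, List.take_append_drop] at h3
        have hcast : ((l - k : ℕ) : ℝ) = l - k := by
          rw [Nat.cast_sub hkl.le]
        rw [hcast] at h2
        refine h3.trans ?_
        have h4 : 2 * (b n (w.take k).prod + b n (w.drop k).prod) ≤
            A1 * (2 * ((2 * (k : ℝ) ^ 2 - 1) + (2 * ((l : ℝ) - k) ^ 2 - 1))) := by nlinarith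
        refine h4.trans (mul_le_mul_of_nonneg_left ?_ hA10)
        rcases Nat.even_or_odd' l with ⟨r, hr | hr⟩
        · have hkr : k = r := by omega
          have hlr : (l : ℝ) = 2 * k := by rw [hkr, hr]; push_cast; ring
          rw [hlr]
          nlinarith
        · have hkr : k = r := by omega
          have hlr : (l : ℝ) = 2 * k + 1 := by rw [hkr, hr]; push_cast; ring
          rw [hlr]
          nlinarith
  refine ⟨C3 * (1 + b n 1 + 2 * A1), fun w hw => ?_⟩
  have hb1 : 0 ≤ b n 1 := h.nonneg n 1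
  have h1 := big_of_word h w.prod
  rw [← hC3] at h1
  have hl0 : (0 : ℝ) ≤ w.length := Nat.cast_nonneg _
  have h2 : b n w.prod ≤ b n 1 + 2 * A1 * (w.length : ℝ) ^ 2 := by
    rcases Nat.eq_zero_or_pos w.length with h0 | h0
    · have hw0 : w = [] := List.length_eq_zero_iff.1 h0
      subst hw0
      simp
    · have h3 := hword w.length w rfl h0 hw
      nlinarith
  have h3 : (1 : ℝ) ≤ (w.length + 1) ^ 2 := by nlinarith
  have h4 : (w.length : ℝ) ^ 2 ≤ (w.length + 1) ^ 2 := by nlinarith
  calc b 0 w.prod ≤ C3 * (1 + b n w.prod) := h1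
    _ ≤ C3 * (1 + (b n 1 + 2 * A1 * (w.length : ℝ) ^ 2)) := by
        apply mul_le_mul_of_nonneg_left _ hC3p.le
        linarith
    _ ≤ C3 * ((1 + b n 1 + 2 * A1) * (w.length + 1) ^ 2) := by
        apply mul_le_mul_of_nonneg_left _ hC3p.le
        have k1 : 2 * A1 * (w.length : ℝ) ^ 2 ≤ 2 * A1 * ((w.length : ℝ) + 1) ^ 2 :=
          mul_le_mul_of_nonneg_left h4 (by positivity)
        have k2 : (1 + b n 1) * 1 ≤ (1 + b n 1) * ((w.length : ℝ) + 1) ^ 2 :=
          mul_le_mul_of_nonneg_left h3 (by positivity)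
        nlinarith
    _ = _ := by ring

end Pool.Agent.N50.QG
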